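import Pool.Agent.H83.HE.Stm

/-! Mini crew HE, part CNT (helper2). -/

set_option autoImplicit false

namespace Pool.Agent.H2.HE

open Finset Pool.Agent.H83.HE

theorem cong_count (q v : ℤ) (hq : 1 ≤ q) (N : ℕ) :
    (2 * (N : ℝ) + 1) / q - 1 ≤
      (((Icc (-(N : ℤ)) N).filter (fun m => q ∣ v - m)).card : ℝ) := by
  have hq0 : (0 : ℤ) < q := by omega
  have h := Int.Ioc_filter_modEq_card (-(N : ℤ) - 1) N hq0 v
  have h1 : (Icc (-(N : ℤ)) N).filter (fun m => q ∣ v - m) =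
      (Ioc (-(N : ℤ) - 1) N).filter (fun x => x ≡ v [ZMOD q]) := by
    ext x
    simp only [mem_filter, mem_Icc, mem_Ioc, Int.modEq_iff_dvd]
    constructor
    · rintro ⟨⟨a, b⟩, c⟩
      exact ⟨⟨by omega, b⟩, c⟩
    · rintro ⟨⟨a, b⟩, c⟩
      exact ⟨⟨by omega, b⟩, c⟩
  rw [h1]
  have hqQ : (0 : ℚ) < q := by exact_mod_cast hq0
  have h2 : (⌊((N : ℤ) - v : ℚ) / (q : ℚ)⌋ - ⌊((-(N : ℤ) - 1 : ℤ) - v : ℚ) / (q : ℚ)⌋ : ℤ) ≤
      (((Ioc (-(N : ℤ) - 1) N).filter (fun x => x ≡ v [ZMOD q])).card : ℤ) := by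
    rw [h]
    exact le_max_left _ _
  have h3 : ((N : ℤ) - v : ℚ) / (q : ℚ) - 1 < ⌊((N : ℤ) - v : ℚ) / (q : ℚ)⌋ := Int.sub_one_lt_floor _
  have h4 : (⌊((-(N : ℤ) - 1 : ℤ) - v : ℚ) / (q : ℚ)⌋ : ℚ) ≤ ((-(N : ℤ) - 1 : ℤ) - v : ℚ) / (q : ℚ) :=
    Int.floor_le _
  have h5 : ((⌊((N : ℤ) - v : ℚ) / (q : ℚ)⌋ - ⌊((-(N : ℤ) - 1 : ℤ) - v : ℚ) / (q : ℚ)⌋ : ℤ) : ℚ) ≤
      ((((Ioc (-(N : ℤ) - 1) N).filter (fun x => x ≡ v [ZMOD q])).card : ℤ) : ℚ) := by
    exact_mod_cast h2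
  push_cast at h5
  have h6 : (2 * (N : ℚ) + 1) / q - 1 ≤
      (((Ioc (-(N : ℤ) - 1) N).filter (fun x => x ≡ v [ZMOD q])).card : ℚ) := by
    have e : (2 * (N : ℚ) + 1) / q = ((N : ℤ) - v : ℚ) / (q : ℚ) - ((-(N : ℤ) - 1 : ℤ) - v : ℚ) / (q : ℚ) := by
      push_cast
      ring
    rw [e]
    push_cast at h3 h4 ⊢
    linarith
  have h7 : (((2 * (N : ℚ) + 1) / q - 1 : ℚ) : ℝ) ≤
      ((((Ioc (-(N : ℤ) - 1) N).filter (fun x => x ≡ v [ZMOD q])).card : ℚ) : ℝ) := by
    exact_mod_cast h6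
  push_cast at h7
  exact h7

theorem t_CNT : S_CNT := by
  classical
  intro q A B C D hq N P hdec hP
  have hq0 : (0 : ℤ) < q := by omega
  set I : Finset ℤ := Icc (-(N : ℤ)) N with hI
  have hIc : (I.card : ℝ) = 2 * N + 1 := by
    rw [hI, Int.card_Icc]
    have : ((N : ℤ) + 1 - -(N : ℤ)).toNat = 2 * N + 1 := by omega
    rw [this]
    push_cast
    ring
  have hrow : ∀ n : ℤ, (2 * (N : ℝ) + 1) / q - 3 ≤ ((I.filter (fun m => P (m, n))).card : ℝ) := by
    intro n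
    have h1 := cong_count q (A * n + B) hq N
    have hsub : I.filter (fun m => q ∣ A * n + B - m) ⊆ I.filter (fun m => P (m, n)) ∪
        (I.filter (fun m => C - q * m - q * n = 0) ∪ I.filter (fun m => D - q * m + q * n = 0)) := by
      intro m hm
      rw [mem_filter] at hm
      rw [mem_union, mem_union, mem_filter, mem_filter, mem_filter]
      by_cases c1 : C - q * m - q * n = 0
      · exact Or.inr (Or.inl ⟨hm.1, c1⟩)
      by_cases c2 : D - q * m + q * n = 0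
      · exact Or.inr (Or.inr ⟨hm.1, c2⟩)
      exact Or.inl ⟨hm.1, hP m n hm.2 c1 c2⟩
    have hz1 : (I.filter (fun m => C - q * m - q * n = 0)).card ≤ 1 := by
      rw [card_le_one]
      intro a ha b hb
      rw [mem_filter] at ha hb
      have : q * a = q * b := by linarith [ha.2, hb.2]
      exact mul_left_cancel₀ hq0.ne' this
    have hz2 : (I.filter (fun m => D - q * m + q * n = 0)).card ≤ 1 := by
      rw [card_le_one]
      intro a ha b hb
      rw [mem_filter] at ha hb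
      have : q * a = q * b := by linarith [ha.2, hb.2]
      exact mul_left_cancel₀ hq0.ne' this
    have hc : (I.filter (fun m => q ∣ A * n + B - m)).card ≤ (I.filter (fun m => P (m, n))).card + 2 := by
      refine (card_le_card hsub).trans ((card_union_le _ _).trans ?_)
      have := card_union_le (I.filter (fun m => C - q * m - q * n = 0))
        (I.filter (fun m => D - q * m + q * n = 0))
      omega
    have hc' : ((I.filter (fun m => q ∣ A * n + B - m)).card : ℝ) ≤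
        (I.filter (fun m => P (m, n))).card + 2 := by exact_mod_cast hc
    linarith
  have hcard : (((I ×ˢ I).filter P).card : ℝ) = ∑ n ∈ I, ((I.filter (fun m => P (m, n))).card : ℝ) := by
    rw [card_filter, sum_product_right]
    push_cast
    refine sum_congr rfl (fun n _ => ?_)
    rw [card_filter]
    push_cast
    rfl
  have hsum : (2 * (N : ℝ) + 1) * ((2 * (N : ℝ) + 1) / q - 3) ≤ (((I ×ˢ I).filter P).card : ℝ) := by
    rw [hcard, ← hIc, ← nsmul_eq_mul, ← sum_const, hIc]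
    exact sum_le_sum (fun n _ => hrow n)
  have hL : (0 : ℝ) < 2 * N + 1 := by positivity
  have hqR : (0 : ℝ) < q := by exact_mod_cast hq0
  rw [le_div_iff₀ (by positivity)]
  refine le_trans (le_of_eq ?_) hsum
  field_simp

end Pool.Agent.H2.HE
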